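import Pool.Agent.Run7.h500.RD.Stm2
/-!
# Project RD2 (helper500), piece BND2, adapted from the piece BND of helper961

Bound of `Vp2` by `A (1+|w|)^m / Im(w)^(m+1)` and integrability of the integrand; `gen_bnd`: the same with
any factor of modulus at most one.
-/
set_option autoImplicit false
open MeasureTheory Filter Topology Set
open Pool.Agent.Run7.h500.RD

namespace Pool.Agent.Run7.h781.RD2

/-- the hypotheses which are used -/
structure Hy (f : ℝ × ℝ → ℝ) (m k : ℕ) (C : ℝ) : Prop where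
  cont : Continuous f
  hk : m + 3 ≤ k
  growth : ∀ x y : ℝ, |f (x, y)| ≤ C * (1 + |x| + |y|) ^ m

/-- Tonelli after a shear. -/
theorem key (G H : ℝ → ENNReal) (hG : Measurable G) (hH : Measurable H) (u b : ℝ) :
    ∫⁻ z in up, G (z.1 - u * z.2 - b) * H z.2 = (∫⁻ s, G s) * ∫⁻ y in Ioi (0:ℝ), H y := by
  have hup : (up : Set (ℝ × ℝ)) = (univ : Set ℝ) ×ˢ (Ioi (0:ℝ)) := by
    ext z; simp [up]
  rw [hup, Measure.volume_eq_prod, ← Measure.prod_restrict, Measure.restrict_univ]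
  rw [lintegral_prod_symm _ (by fun_prop)]
  have h1 : ∀ y : ℝ, ∫⁻ x : ℝ, G (x - u * y - b) * H y = (∫⁻ s, G s) * H y := by
    intro y
    rw [lintegral_mul_const _ (by fun_prop)]
    congr 1
    have h2 : ∀ x : ℝ, G (x - u * y - b) = (fun s => G s) (x - (u * y + b)) := by
      intro x
      show G _ = G _
      congr 1; ring
    simp_rw [h2]
    exact lintegral_sub_right_eq_self (fun s => G s) (u * y + b)
  simp_rw [h1]
  rw [lintegral_const_mul _ hH]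

theorem q_facts (c w : ℂ) (z : ℝ × ℝ) :
    (z.2 * w.im + c.im ≤ ‖w * (z.2 : ℂ) - (z.1 : ℂ) + c‖) ∧
    (|z.1 - w.re * z.2 - c.re| ≤ ‖w * (z.2 : ℂ) - (z.1 : ℂ) + c‖) := by
  constructor
  · have h1 : (w * (z.2 : ℂ) - (z.1 : ℂ) + c).im = z.2 * w.im + c.im := by
      simp [Complex.add_im, Complex.sub_im, Complex.mul_im]; ring
    calc z.2 * w.im + c.im ≤ |z.2 * w.im + c.im| := le_abs_self _
      _ = |(w * (z.2 : ℂ) - (z.1 : ℂ) + c).im| := by rw [h1]
      _ ≤ _ := Complex.abs_im_le_norm _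
  · have h1 : (w * (z.2 : ℂ) - (z.1 : ℂ) + c).re = - (z.1 - w.re * z.2 - c.re) := by
      simp [Complex.add_re, Complex.sub_re, Complex.mul_re]; ring
    calc |z.1 - w.re * z.2 - c.re| = |(w * (z.2 : ℂ) - (z.1 : ℂ) + c).re| := by
          rw [h1, abs_neg]
      _ ≤ _ := Complex.abs_re_le_norm _

/-- `1 + |x| + |y| ≤ T |q|`, `T ≤ 2 K (1 + |w|) / η`. -/
theorem lin_bound (c w : ℂ) (hc : 0 < c.im) (hw : 0 < w.im) (z : ℝ × ℝ) (hz : 0 < z.2) :
    1 + |z.1| + |z.2| ≤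
      (2 * (1 + (1 + |c.re|) / c.im) * (1 + ‖w‖) / w.im) *
        ‖w * (z.2 : ℂ) - (z.1 : ℂ) + c‖ := by
  obtain ⟨h1, h2⟩ := q_facts c w z
  set Q := ‖w * (z.2 : ℂ) - (z.1 : ℂ) + c‖ with hQ
  have hη : w.im ≤ ‖w‖ := le_trans (le_abs_self _) (Complex.abs_im_le_norm w)
  have hu : |w.re| ≤ ‖w‖ := Complex.abs_re_le_norm w
  have hy : |z.2| = z.2 := abs_of_pos hz
  have hQ0 : 0 < Q := lt_of_lt_of_le (by positivity) h1
  have e1 : z.2 * w.im ≤ Q := by linarith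
  have e2 : c.im ≤ Q := by nlinarith [mul_pos hz hw]
  have e3 : z.2 ≤ Q / w.im := by rw [le_div_iff₀ hw]; exact e1
  have e4 : 1 ≤ Q / c.im := by rw [le_div_iff₀ hc]; linarith
  have e5 : |z.1| ≤ Q + |w.re| * (Q / w.im) + |c.re| * (Q / c.im) := by
    have h3 : z.1 = (z.1 - w.re * z.2 - c.re) + w.re * z.2 + c.re := by ring
    calc |z.1| = |(z.1 - w.re * z.2 - c.re) + w.re * z.2 + c.re| := by rw [← h3]
      _ ≤ |(z.1 - w.re * z.2 - c.re)| + |w.re * z.2| + |c.re| := abs_add_three _ _ _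
      _ ≤ Q + |w.re| * (Q / w.im) + |c.re| * (Q / c.im) := by
          rw [abs_mul, hy]
          have t1 : |w.re| * z.2 ≤ |w.re| * (Q / w.im) :=
            mul_le_mul_of_nonneg_left e3 (abs_nonneg _)
          have t2 : |c.re| * 1 ≤ |c.re| * (Q / c.im) :=
            mul_le_mul_of_nonneg_left e4 (abs_nonneg _)
          linarith
  have e6 : 1 + |z.1| + |z.2| ≤ Q * ((1 + |c.re|) / c.im + 1 + (1 + |w.re|) / w.im) := by
    rw [hy]
    have : Q * ((1 + |c.re|) / c.im + 1 + (1 + |w.re|) / w.im) =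
      Q / c.im + |c.re| * (Q / c.im) + Q + Q / w.im + |w.re| * (Q / w.im) := by
      field_simp
      ring
    rw [this]; linarith
  have e7 : (1 + |c.re|) / c.im + 1 + (1 + |w.re|) / w.im ≤
      2 * (1 + (1 + |c.re|) / c.im) * (1 + ‖w‖) / w.im := by
    set K := 1 + (1 + |c.re|) / c.im with hK
    have hK1 : 1 ≤ K := by
      rw [hK]
      have : 0 ≤ (1 + |c.re|) / c.im := by positivity
      linarith
    have g1 : (1 + |c.re|) / c.im + 1 = K := by rw [hK]; ring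
    rw [g1]
    rw [le_div_iff₀ hw]
    have g2 : (K + (1 + |w.re|) / w.im) * w.im = K * w.im + (1 + |w.re|) := by
      field_simp
    rw [g2]
    nlinarith [norm_nonneg w, abs_nonneg w.re]
  calc 1 + |z.1| + |z.2| ≤ Q * ((1 + |c.re|) / c.im + 1 + (1 + |w.re|) / w.im) := e6
    _ ≤ Q * (2 * (1 + (1 + |c.re|) / c.im) * (1 + ‖w‖) / w.im) :=
        mul_le_mul_of_nonneg_left e7 hQ0.le
    _ = _ := by ring

/-- the pointwise bound -/
theorem pt_bound (f : ℝ × ℝ → ℝ) (m k : ℕ) (C : ℝ) (hf : Hy f m k C) (c w : ℂ)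
    (hc : 0 < c.im) (hw : 0 < w.im) (z : ℝ × ℝ) (hz : 0 < z.2) :
    ‖(f z : ℂ) * ker k c w z‖ ≤
      (C * ((c.im) ^ (k - m - 3))⁻¹ * (1 + 1 / c.im) ^ (3/2 : ℝ) *
        (2 * (1 + (1 + |c.re|) / c.im) * (1 + ‖w‖) / w.im) ^ m) *
      ((1 + |z.1 - w.re * z.2 - c.re|) ^ (-(3/2) : ℝ) *
        (w.im * z.2 + c.im) ^ (-(3/2) : ℝ)) := by
  obtain ⟨h1, h2⟩ := q_facts c w z
  have h3 := lin_bound c w hc hw z hz
  have hC : 0 ≤ C := by
    have := hf.growth 0 0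
    have h0 : 0 ≤ |f (0, 0)| := abs_nonneg _
    simp at this
    linarith
  have hg : |f z| ≤ C * (1 + |z.1| + |z.2|) ^ m := hf.growth z.1 z.2
  have hk := hf.hk
  unfold Pool.Agent.Run7.h500.RD.ker
  rw [norm_mul, norm_inv, norm_pow, Complex.norm_real, Real.norm_eq_abs]
  set Q := ‖w * (z.2 : ℂ) - (z.1 : ℂ) + c‖ with hQ
  set T := 2 * (1 + (1 + |c.re|) / c.im) * (1 + ‖w‖) / w.im with hT
  set s := |z.1 - w.re * z.2 - c.re| with hs
  have hs0 : 0 ≤ s := abs_nonneg _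
  have hT0 : 0 < T := by positivity
  have hρ : 0 < w.im * z.2 + c.im := by positivity
  have h1' : w.im * z.2 + c.im ≤ Q := by linarith [mul_comm w.im z.2]
  have hQ0 : 0 < Q := lt_of_lt_of_le hρ h1'
  have hcQ : c.im ≤ Q := by nlinarith [mul_pos hw hz]
  have a1 : |f z| ≤ C * T ^ m * Q ^ m := by
    calc |f z| ≤ C * (1 + |z.1| + |z.2|) ^ m := hg
      _ ≤ C * (T * Q) ^ m := by
          apply mul_le_mul_of_nonneg_left _ hC
          exact pow_le_pow_left₀ (by positivity) h3 m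
      _ = C * T ^ m * Q ^ m := by rw [mul_pow]; ring
  have a2 : Q ^ k = Q ^ m * Q ^ (k - m - 3) * Q ^ 3 := by
    rw [← pow_add, ← pow_add]; congr 1; omega
  have a3 : (Q ^ 3) = Q ^ (3/2 : ℝ) * Q ^ (3/2 : ℝ) := by
    rw [← Real.rpow_add hQ0]
    norm_num
  have b1 : (Q ^ (3/2 : ℝ))⁻¹ ≤ (w.im * z.2 + c.im) ^ (-(3/2) : ℝ) := by
    rw [Real.rpow_neg hρ.le]
    apply inv_anti₀ (Real.rpow_pos_of_pos hρ _)
    exact Real.rpow_le_rpow hρ.le h1' (by norm_num)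
  have b2 : (Q ^ (3/2 : ℝ))⁻¹ ≤ (1 + 1 / c.im) ^ (3/2 : ℝ) * (1 + s) ^ (-(3/2) : ℝ) := by
    have h4 : 1 + s ≤ (1 + 1 / c.im) * Q := by
      have h5 : 1 ≤ Q / c.im := by rw [le_div_iff₀ hc]; linarith
      have h6 : (1 + 1 / c.im) * Q = Q + Q / c.im := by field_simp
      rw [h6]; linarith
    have h7 : (1 + s) ^ (3/2 : ℝ) ≤ (1 + 1 / c.im) ^ (3/2 : ℝ) * Q ^ (3/2 : ℝ) := by
      rw [← Real.mul_rpow (by positivity) hQ0.le]
      exact Real.rpow_le_rpow (by positivity) h4 (by norm_num)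
    rw [Real.rpow_neg (by positivity)]
    rw [inv_le_iff_one_le_mul₀ (Real.rpow_pos_of_pos hQ0 _)]
    have h8 : 0 < (1 + s) ^ (3/2 : ℝ) := Real.rpow_pos_of_pos (by positivity) _
    have h9 : (1 + 1 / c.im) ^ (3/2 : ℝ) * ((1 + s) ^ (3/2 : ℝ))⁻¹ * Q ^ (3/2 : ℝ) =
      ((1 + 1 / c.im) ^ (3/2 : ℝ) * Q ^ (3/2 : ℝ)) / (1 + s) ^ (3/2 : ℝ) := by
      field_simp
    rw [h9, le_div_iff₀ h8]; linarith
  have b3 : (Q ^ (k - m - 3))⁻¹ ≤ ((c.im) ^ (k - m - 3))⁻¹ := by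
    apply inv_anti₀ (by positivity)
    exact pow_le_pow_left₀ hc.le hcQ _
  have hr : 0 < Q ^ (3/2 : ℝ) := Real.rpow_pos_of_pos hQ0 _
  calc |f z| * (Q ^ k)⁻¹ ≤ (C * T ^ m * Q ^ m) * (Q ^ k)⁻¹ :=
        mul_le_mul_of_nonneg_right a1 (by positivity)
    _ = (C * T ^ m) * ((Q ^ (k - m - 3))⁻¹ * ((Q ^ (3/2 : ℝ))⁻¹ * (Q ^ (3/2 : ℝ))⁻¹)) := by
        rw [a2, a3]
        field_simp
    _ ≤ (C * T ^ m) * (((c.im) ^ (k - m - 3))⁻¹ *
          (((1 + 1 / c.im) ^ (3/2 : ℝ) * (1 + s) ^ (-(3/2) : ℝ)) *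
            (w.im * z.2 + c.im) ^ (-(3/2) : ℝ))) := by
        apply mul_le_mul_of_nonneg_left _ (by positivity)
        apply mul_le_mul b3 _ (by positivity) (by positivity)
        apply mul_le_mul b2 b1 (by positivity) (by positivity)
    _ = _ := by ring

theorem gen_bnd (f : ℝ × ℝ → ℝ) (m k : ℕ) (C : ℝ) (hf : Hy f m k C) (c : ℂ) (hc : 0 < c.im) :
    ∃ A : ℝ, 0 ≤ A ∧ ∀ w : ℂ, 0 < w.im → ∀ E : ℝ × ℝ → ℂ, Measurable E →
      (∀ z ∈ up, ‖E z‖ ≤ 1) → IntegrableOn (fun z => (f z : ℂ) * (ker k c w z * E z)) up ∧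
        ‖∫ z in up, (f z : ℂ) * (ker k c w z * E z)‖ ≤ A * (1 + ‖w‖) ^ m / w.im ^ (m + 1) := by
  have hC : 0 ≤ C := by
    have := hf.growth 0 0
    have h0 : 0 ≤ |f (0, 0)| := abs_nonneg _
    simp at this
    linarith
  set g1 : ℝ → ℝ := fun s => (1 + |s|) ^ (-(3/2) : ℝ) with hg1
  set h1 : ℝ → ℝ := fun t => (t + c.im) ^ (-(3/2) : ℝ) with hh1
  have ig1 : Integrable g1 := by
    have := integrable_one_add_norm (E := ℝ) (μ := volume) (r := 3/2) (by norm_num)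
    simpa [hg1, Real.norm_eq_abs] using this
  have ih1 : IntegrableOn h1 (Ioi 0) := by
    exact integrableOn_add_rpow_Ioi_of_lt (by norm_num) (by linarith)
  set Ig := ∫ s, g1 s with hIg
  set Ih := ∫ t in Ioi (0:ℝ), h1 t with hIh
  have g1n : ∀ s, 0 ≤ g1 s := fun s => Real.rpow_nonneg (by positivity) _
  have hIg0 : 0 ≤ Ig := integral_nonneg g1n
  have hIh0 : 0 ≤ Ih := by
    apply setIntegral_nonneg measurableSet_Ioi
    intro t ht
    exact Real.rpow_nonneg (by have : (0:ℝ) < t := ht; linarith) _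
  set K : ℝ := 2 * (1 + (1 + |c.re|) / c.im) with hK
  have hK0 : 0 ≤ K := by positivity
  set A1 : ℝ := C * ((c.im) ^ (k - m - 3))⁻¹ * (1 + 1 / c.im) ^ (3/2 : ℝ) with hA1
  have hA10 : 0 ≤ A1 := by positivity
  refine ⟨A1 * K ^ m * Ig * Ih, by positivity, ?_⟩
  intro w hw E hE hE1
  set B : ℝ := A1 * (K * (1 + ‖w‖) / w.im) ^ m with hB
  have hB0 : 0 ≤ B := by positivity
  have hmeas : Measurable (fun z : ℝ × ℝ => (f z : ℂ) * (ker k c w z * E z)) := by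
    have := hf.cont
    have m1 : Measurable f := this.measurable
    unfold Pool.Agent.Run7.h500.RD.ker
    fun_prop
  have hpt : ∀ z : ℝ × ℝ, z ∈ up → ‖(f z : ℂ) * (ker k c w z * E z)‖ₑ ≤
      ENNReal.ofReal B * (ENNReal.ofReal (g1 (z.1 - w.re * z.2 - c.re)) *
        ENNReal.ofReal (h1 (w.im * z.2))) := by
    intro z hz
    have hz' : 0 < z.2 := hz
    have h0 := pt_bound f m k C hf c w hc hw z hz'
    have h00 : ‖(f z : ℂ) * (ker k c w z * E z)‖ ≤ ‖(f z : ℂ) * ker k c w z‖ := by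
      rw [← mul_assoc, norm_mul]
      exact mul_le_of_le_one_right (norm_nonneg _) (hE1 z hz)
    have := h00.trans h0
    rw [← ENNReal.ofReal_mul (g1n _), ← ENNReal.ofReal_mul hB0, ← ofReal_norm]
    exact ENNReal.ofReal_le_ofReal this
  have hupm : MeasurableSet up := by
    have : up = {z : ℝ × ℝ | 0 < z.2} := rfl
    rw [this]
    exact measurableSet_lt measurable_const measurable_snd
  have mg1 : Measurable g1 := by
    simp only [hg1]; fun_prop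
  have mh1 : Measurable h1 := by
    simp only [hh1]; fun_prop
  have L1 : ∫⁻ s, ENNReal.ofReal (g1 s) = ENNReal.ofReal Ig := by
    rw [hIg, ofReal_integral_eq_lintegral_ofReal ig1 (Eventually.of_forall g1n)]
  have hη : ∫ y in Ioi (0:ℝ), h1 (w.im * y) = w.im⁻¹ * Ih := by
    have := integral_comp_mul_left_Ioi h1 0 hw
    rw [mul_zero, smul_eq_mul] at this
    exact this
  have hηi : IntegrableOn (fun y => h1 (w.im * y)) (Ioi 0) := by
    rw [integrableOn_Ioi_comp_mul_left_iff h1 0 hw, mul_zero]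
    exact ih1
  have L2 : ∫⁻ y in Ioi (0:ℝ), ENNReal.ofReal (h1 (w.im * y)) = ENNReal.ofReal (w.im⁻¹ * Ih) := by
    rw [← hη, ofReal_integral_eq_lintegral_ofReal hηi]
    apply (ae_restrict_iff' measurableSet_Ioi).mpr
    apply Eventually.of_forall
    intro t ht
    exact Real.rpow_nonneg (by have : (0:ℝ) < t := ht; positivity) _
  have L3 : ∫⁻ z in up, ‖(f z : ℂ) * (ker k c w z * E z)‖ₑ ≤
      ENNReal.ofReal (A1 * K ^ m * Ig * Ih * (1 + ‖w‖) ^ m / w.im ^ (m + 1)) := by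
    calc ∫⁻ z in up, ‖(f z : ℂ) * (ker k c w z * E z)‖ₑ ≤
        ∫⁻ z in up, ENNReal.ofReal B * (ENNReal.ofReal (g1 (z.1 - w.re * z.2 - c.re)) *
        ENNReal.ofReal (h1 (w.im * z.2))) := setLIntegral_mono' hupm hpt
      _ = ENNReal.ofReal B * ∫⁻ z in up, (ENNReal.ofReal (g1 (z.1 - w.re * z.2 - c.re)) *
        ENNReal.ofReal (h1 (w.im * z.2))) := by
          rw [lintegral_const_mul _ (by fun_prop)]
      _ = ENNReal.ofReal B * ((∫⁻ s, ENNReal.ofReal (g1 s)) *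
            ∫⁻ y in Ioi (0:ℝ), ENNReal.ofReal (h1 (w.im * y))) := by
          congr 1
          exact key (fun s => ENNReal.ofReal (g1 s)) (fun y => ENNReal.ofReal (h1 (w.im * y)))
            (by fun_prop) (by fun_prop) w.re c.re
      _ = ENNReal.ofReal (B * (Ig * (w.im⁻¹ * Ih))) := by
          rw [L1, L2, ← ENNReal.ofReal_mul hIg0, ← ENNReal.ofReal_mul hB0]
      _ = _ := by
          congr 1
          rw [hB, div_pow, mul_pow]
          field_simp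
          ring
  have hint : IntegrableOn (fun z => (f z : ℂ) * (ker k c w z * E z)) up := by
    refine ⟨hmeas.aestronglyMeasurable, ?_⟩
    exact lt_of_le_of_lt L3 ENNReal.ofReal_lt_top
  refine ⟨hint, ?_⟩
  have h5 := enorm_integral_le_lintegral_enorm (μ := volume.restrict up)
    (fun z => (f z : ℂ) * (ker k c w z * E z))
  have h6 := le_trans h5 L3
  rw [← ofReal_norm] at h6
  exact (ENNReal.ofReal_le_ofReal_iff (by positivity)).mp h6

theorem ee_meas (ρ ε : ℝ) (c w : ℂ) :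
    Measurable (fun z : ℝ × ℝ => EE ρ ε (w * (z.2 : ℂ) - (z.1 : ℂ) + c)) := by
  unfold EE
  fun_prop

theorem t_BND2 : S_BND2 := by
  intro hK f ρ0 m k C hk hf ρ ε hp c hc
  obtain ⟨A, hA, h⟩ := gen_bnd f m k C ⟨hf.cont, by omega, hf.growth⟩ c hc
  refine ⟨A, hA, fun w hw => ?_⟩
  exact h w hw (fun z => EE ρ ε (w * (z.2 : ℂ) - (z.1 : ℂ) + c)) (ee_meas ρ ε c w) (fun z hz => by
    refine (hK ρ ε (hp.h0.trans hp.h1) hp.h2 hp.h3).2.2.1 _ ?_
    have h1 : (w * (z.2 : ℂ) - (z.1 : ℂ) + c).im = z.2 * w.im + c.im := by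
      simp [Complex.add_im, Complex.sub_im, Complex.mul_im]; ring
    rw [h1]
    have hz' : 0 < z.2 := hz
    positivity)

end Pool.Agent.Run7.h781.RD2

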